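import Pool.Agent.H38.ER.Closed

open Pool.Agent.H38.NP Pool.Agent.H38.ER

theorem Pool.Agent.Results.MP_432bcd_lc.Complete.result :
    Reduces (lang fun p : ℕ × Fm => IsClosed {x : Fin p.1 → ℝ | p.2.Holds (xt x)})ᶜ (lang ETR) ∧
    ERHardOn (fun _ : ℕ × Fm => True)
      fun p => ¬ IsClosed {x : Fin p.1 → ℝ | p.2.Holds (xt x)} :=
  ⟨closed_mem, notClosed_erh.hardOn⟩
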